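import Mathlib
import Pool.Agent.H.MP_26c4ab_lc.Main

set_option autoImplicit false

namespace Pool.Agent.Results.MP_26c4ab_lc.Counter

open Pool.Agent.H.MP_26c4ab_lc

theorem result : ∃ F : ℕ → Ultrafilter ℕ+, (∀ i j, i ≤ j → FE (F j) (F i)) ∧
    ¬ ∃ G : Ultrafilter ℕ+, (∀ i, FE G (F i)) ∧ ∀ H : Ultrafilter ℕ+, (∀ i, FE H (F i)) → FE H G :=
  ⟨chain, fun _ _ h => chain_anti h, fun ⟨G, h1, h2⟩ => no_glb G h1 h2⟩

end Pool.Agent.Results.MP_26c4ab_lc.Counter
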